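import Mathlib

/-! # Product-isomorphism under decomposition (definitions for MP_0a04b1_lc) -/

set_option autoImplicit false

namespace Pool.Agent.Lib.MP_0a04b1_lc

/-- Two subsets `A`, `B` of `E^n` are product-isomorphic if some bijection `f : E → E` makes the
coordinatewise map `(x_1, …, x_n) ↦ (f x_1, …, f x_n)` send `A` onto `B`. -/
def ProductIso {E : Type} {n : ℕ} (A B : Set (Fin n → E)) : Prop :=
  ∃ f : E ≃ E, (fun (x : Fin n → E) (i : Fin n) => f (x i)) '' A = B

/-- Two subsets `A`, `B` of `E^n` are product-isomorphic under decomposition if for some finite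
`m ≥ 1` they are partitioned into `m` pairwise disjoint pieces with corresponding pieces
product-isomorphic (with a bijection of `E` depending on the piece). -/
def ProductIsoDecomp {E : Type} {n : ℕ} (A B : Set (Fin n → E)) : Prop :=
  ∃ (m : ℕ) (P Q : Fin m → Set (Fin n → E)), 1 ≤ m ∧
    (∀ i j, i ≠ j → Disjoint (P i) (P j)) ∧ (⋃ i, P i) = A ∧
    (∀ i j, i ≠ j → Disjoint (Q i) (Q j)) ∧ (⋃ i, Q i) = B ∧
    ∀ i, ProductIso (P i) (Q i)

/-- The representation (multiplication graph) of a group `G`, carried to the set `E` by the
bijection `a : G ≃ E`: the set of triples `(x, y, z)` of elements of `E` with `x y = z` for the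
transported multiplication. -/
def mulGraph {G E : Type} [Group G] (a : G ≃ E) : Set (Fin 3 → E) :=
  {t | a.symm (t 0) * a.symm (t 1) = a.symm (t 2)}

/-- Two groups are isomorphic under decomposition if, after carrying both to one set `E` by
bijections, their representations are product-isomorphic under decomposition. -/
def GroupIsoDecomp (G H : Type) [Group G] [Group H] : Prop :=
  ∃ (E : Type) (a : G ≃ E) (b : H ≃ E), ProductIsoDecomp (mulGraph a) (mulGraph b)

end Pool.Agent.Lib.MP_0a04b1_lc
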