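import Pool.Agent.Lib.MP_0a04b1_lc.Defs

set_option autoImplicit false

namespace Pool.Agent.Lib.MP_0a04b1_lc

open Cardinal

/-- Transfer of finite groups all of whose finite powers embed. -/
lemma exists_embedding_of_groupIsoDecomp {G H : Type} [Group G] [Group H]
    (h : GroupIsoDecomp G H) (K : Type) [Group K] [Finite K]
    (hK : ∀ (ι : Type) [Fintype ι], ∃ φ : (ι → K) →* G, Function.Injective φ) :
    ∃ φ : K →* H, Function.Injective φ := by
  classical
  obtain ⟨E, a, b, m, P, Q, -, -, hPU, -, hQU, hiso⟩ := h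
  obtain ⟨ι, hι, hHJ⟩ := Combinatorics.Line.exists_mono_in_high_dimension (K × K) (Fin m)
  obtain ⟨ψ, hψ⟩ := hK ι
  -- the triple attached to a word
  let tr : (ι → K × K) → (Fin 3 → E) := fun w =>
    ![a (ψ fun i => (w i).1), a (ψ fun i => (w i).2), a (ψ fun i => (w i).1 * (w i).2)]
  have htr : ∀ w, tr w ∈ ⋃ i, P i := by
    intro w
    rw [hPU]
    change a.symm (a (ψ fun i => (w i).1)) * a.symm (a (ψ fun i => (w i).2)) =
      a.symm (a (ψ fun i => (w i).1 * (w i).2))
    rw [Equiv.symm_apply_apply, Equiv.symm_apply_apply, Equiv.symm_apply_apply, ← map_mul]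
    rfl
  choose c hc using fun w => Set.mem_iUnion.mp (htr w)
  obtain ⟨l, c₀, hl⟩ := hHJ c
  obtain ⟨f, hf⟩ := hiso c₀
  let X : K → E := fun x => a (ψ fun i => ((l.idxFun i).getD (x, x)).1)
  let Y : K → E := fun y => a (ψ fun i => ((l.idxFun i).getD (y, y)).2)
  let Z : K → E := fun z => a (ψ fun i =>
    (l.idxFun i).elim z (fun p => p.1 * p.2))
  have hmul : ∀ x y : K,
      b.symm (f (X x)) * b.symm (f (Y y)) = b.symm (f (Z (x * y))) := by
    intro x y
    have h1 : tr (l (x, y)) ∈ P c₀ := by
      have := hc (l (x, y))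
      rwa [hl] at this
    have h2 : (fun i => f (tr (l (x, y)) i)) ∈ Q c₀ := by
      rw [← hf]
      exact ⟨_, h1, rfl⟩
    have h3 : (fun i => f (tr (l (x, y)) i)) ∈ mulGraph b := by
      rw [← hQU]
      exact Set.mem_iUnion.mpr ⟨c₀, h2⟩
    have e0 : tr (l (x, y)) 0 = X x := by
      change a (ψ fun i => (l (x, y) i).1) = a (ψ fun i => ((l.idxFun i).getD (x, x)).1)
      congr 2
      funext i
      rw [Combinatorics.Line.coe_apply]
      cases l.idxFun i <;> rfl
    have e1 : tr (l (x, y)) 1 = Y y := by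
      change a (ψ fun i => (l (x, y) i).2) = a (ψ fun i => ((l.idxFun i).getD (y, y)).2)
      congr 2
      funext i
      rw [Combinatorics.Line.coe_apply]
      cases l.idxFun i <;> rfl
    have e2 : tr (l (x, y)) 2 = Z (x * y) := by
      change a (ψ fun i => (l (x, y) i).1 * (l (x, y) i).2) =
        a (ψ fun i => (l.idxFun i).elim (x * y) (fun p => p.1 * p.2))
      congr 2
      funext i
      rw [Combinatorics.Line.coe_apply]
      cases l.idxFun i <;> rfl
    have h4 : b.symm (f (tr (l (x, y)) 0)) * b.symm (f (tr (l (x, y)) 1)) =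
        b.symm (f (tr (l (x, y)) 2)) := h3
    rwa [e0, e1, e2] at h4
  -- abbreviations in `H`
  set p : K → H := fun x => b.symm (f (X x)) with hp
  set q : K → H := fun x => b.symm (f (Y x)) with hq
  set r : K → H := fun x => b.symm (f (Z x)) with hr
  have hpqr : ∀ x y, p x * q y = r (x * y) := hmul
  have hX : Function.Injective X := by
    intro x x' hxx
    have h1 := hψ (a.injective hxx)
    obtain ⟨i, hi⟩ := l.proper
    have h2 := congrFun h1 i
    simpa [hi] using h2
  have hpinj : Function.Injective p := by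
    intro x x' hxx
    exact hX (f.injective (b.symm.injective hxx))
  have key : ∀ x, (p 1)⁻¹ * p x = q x * (q 1)⁻¹ := by
    intro x
    have h1 : p x * q 1 = p 1 * q x := by rw [hpqr, hpqr, mul_one, one_mul]
    rw [eq_mul_inv_iff_mul_eq, mul_assoc, h1, inv_mul_cancel_left]
  refine ⟨MonoidHom.mk' (fun x => (p 1)⁻¹ * p x) ?_, ?_⟩
  · intro x y
    have h1 : p (x * y) * q 1 = p x * q y := by rw [hpqr, hpqr, mul_one]
    have h2 : p (x * y) = p x * (q y * (q 1)⁻¹) := by
      rw [← mul_assoc, eq_mul_inv_iff_mul_eq, h1]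
    rw [h2, ← key y]
    group
  · intro x x' hxx
    have h1 : (p 1)⁻¹ * p x = (p 1)⁻¹ * p x' := hxx
    exact hpinj (mul_left_cancel h1)

/-- All finite powers of a finite group embed in the group of permutations of `ℤ`. -/
lemma exists_embedding_perm_int (K : Type) [Group K] [Finite K] (ι : Type) [Fintype ι] :
    ∃ φ : (ι → K) →* Equiv.Perm ℤ, Function.Injective φ := by
  classical
  obtain ⟨g, hg⟩ := exists_injective_nat (ι → K)
  let e : (ι → K) ↪ ℤ := ⟨fun x => (g x : ℤ), fun x y hxy => hg (Int.ofNat.inj hxy)⟩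
  refine ⟨(Equiv.Perm.viaEmbeddingHom e).comp (MulAction.toPermHom (ι → K) (ι → K)), ?_⟩
  intro x y hxy
  have h1 := Equiv.Perm.viaEmbeddingHom_injective e hxy
  have h2 := congrArg (fun s : Equiv.Perm (ι → K) => s 1) h1
  simpa using h2

/-- An increasing self-homeomorphism of `[0,1]` whose square is the identity is the identity. -/
lemma eq_one_of_strictMono (g : unitInterval ≃ₜ unitInterval) (hg : StrictMono g)
    (h2 : g * g = 1) : g = 1 := by
  ext x
  have hx : g (g x) = x := by
    have := congrArg (fun s : unitInterval ≃ₜ unitInterval => s x) h2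
    simpa using this
  rcases lt_trichotomy (g x) x with h | h | h
  · have := hg h
    rw [hx] at this
    exact absurd (this.trans h) (lt_irrefl _)
  · rw [h]; rfl
  · have := hg h
    rw [hx] at this
    exact absurd (this.trans h) (lt_irrefl _)

lemma strictMono_or_strictAnti (g : unitInterval ≃ₜ unitInterval) :
    StrictMono g ∨ StrictAnti g :=
  Continuous.strictMono_of_inj g.continuous g.injective

/-- The Klein four-group does not embed in the group of self-homeomorphisms of `[0,1]`. -/
lemma no_klein (φ : (Multiplicative (ZMod 2) × Multiplicative (ZMod 2)) →*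
    (unitInterval ≃ₜ unitInterval)) : ¬ Function.Injective φ := by
  intro hφ
  have hanti : ∀ k : Multiplicative (ZMod 2) × Multiplicative (ZMod 2), k ≠ 1 →
      StrictAnti (φ k) := by
    intro k hk
    rcases strictMono_or_strictAnti (φ k) with h | h
    · exfalso
      have hk2 : ∀ k : Multiplicative (ZMod 2) × Multiplicative (ZMod 2), k * k = 1 := by
        decide
      have h1 : φ k = 1 := by
        apply eq_one_of_strictMono _ h
        rw [← map_mul, hk2 k, map_one]
      rw [← map_one φ] at h1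
      exact hk (hφ h1)
    · exact h
  have ha := hanti (Multiplicative.ofAdd 1, 1) (by decide)
  have hb := hanti (1, Multiplicative.ofAdd 1) (by decide)
  have hab := hanti ((Multiplicative.ofAdd 1, 1) * (1, Multiplicative.ofAdd 1)) (by decide)
  rw [map_mul] at hab
  have h01 : (0 : unitInterval) < 1 := zero_lt_one
  have h1 := ha (hb h01)
  have h2 := hab h01
  rw [Homeomorph.mul_apply, Homeomorph.mul_apply] at h2
  exact absurd (h1.trans h2) (lt_irrefl _)

/-- A one-parameter family of self-homeomorphisms of `[0,1]`. -/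
lemma exists_homeo (c : ℝ) (hc : 0 < c) :
    ∃ g : unitInterval ≃ₜ unitInterval,
      ∀ x : unitInterval, ((g x : unitInterval) : ℝ) = x / (x + c * (1 - x)) := by
  have hden : ∀ (c : ℝ), 0 < c → ∀ x : unitInterval, 0 < (x : ℝ) + c * (1 - x) := by
    intro c hc x
    have hx0 := x.2.1
    have hx1 := x.2.2
    rcases eq_or_lt_of_le hx0 with h | h
    · rw [← h]; simpa using hc
    · have : 0 ≤ c * (1 - (x : ℝ)) := mul_nonneg hc.le (by linarith)
      linarith
  let F : ∀ (c : ℝ), 0 < c → unitInterval → unitInterval := fun c hc x =>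
    ⟨(x : ℝ) / ((x : ℝ) + c * (1 - x)), by
      have hx0 := x.2.1
      have hx1 := x.2.2
      refine ⟨div_nonneg hx0 (hden c hc x).le, ?_⟩
      rw [div_le_one (hden c hc x)]
      have : 0 ≤ c * (1 - (x : ℝ)) := mul_nonneg hc.le (by linarith)
      linarith⟩
  have hcont : ∀ (c : ℝ) (hc : 0 < c), Continuous (F c hc) := by
    intro c hc
    refine Continuous.subtype_mk ?_ _
    refine Continuous.div (by fun_prop) (by fun_prop) ?_
    intro x
    exact (hden c hc x).ne'
  have hinv : ∀ (c d : ℝ) (hc : 0 < c) (hd : 0 < d), c * d = 1 →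
      ∀ x, F d hd (F c hc x) = x := by
    intro c d hc hd hcd x
    apply Subtype.ext
    have h1 := hden c hc x
    have h2 := hden d hd (F c hc x)
    change ((x : ℝ) / ((x : ℝ) + c * (1 - x))) /
      ((x : ℝ) / ((x : ℝ) + c * (1 - x)) + d * (1 - (x : ℝ) / ((x : ℝ) + c * (1 - x)))) = x
    change 0 < ((x : ℝ) / ((x : ℝ) + c * (1 - x)) +
      d * (1 - (x : ℝ) / ((x : ℝ) + c * (1 - x)))) at h2
    have h3 : ((x : ℝ) / ((x : ℝ) + c * (1 - x)) +
      d * (1 - (x : ℝ) / ((x : ℝ) + c * (1 - x)))) = 1 / ((x : ℝ) + c * (1 - x)) := by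
      field_simp
      linear_combination (1 - (x : ℝ)) * hcd
    rw [h3]
    field_simp
  refine ⟨⟨⟨F c hc, F c⁻¹ (inv_pos.mpr hc), ?_, ?_⟩, hcont c hc, hcont c⁻¹ (inv_pos.mpr hc)⟩, ?_⟩
  · exact hinv c c⁻¹ hc (inv_pos.mpr hc) (mul_inv_cancel₀ hc.ne')
  · exact hinv c⁻¹ c (inv_pos.mpr hc) hc (inv_mul_cancel₀ hc.ne')
  · intro x
    rfl

/-- There are exactly continuum many self-homeomorphisms of `[0,1]`. -/
lemma mk_homeo : Cardinal.mk (unitInterval ≃ₜ unitInterval) = 𝔠 := by
  apply le_antisymm
  · obtain ⟨s, hs, hd⟩ := TopologicalSpace.exists_countable_dense unitInterval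
    have hinj : Function.Injective
        (fun (g : unitInterval ≃ₜ unitInterval) (x : s) => g (x : unitInterval)) := by
      intro g h hgh
      have : (g : unitInterval → unitInterval) = h := by
        apply Continuous.ext_on hd g.continuous h.continuous
        intro x hx
        exact congrFun hgh ⟨x, hx⟩
      ext x
      rw [this]
    have h1 := Cardinal.mk_le_of_injective hinj
    have h2 : Cardinal.mk (s → unitInterval) ≤ 𝔠 := by
      rw [← Cardinal.power_def]
      have h3 : Cardinal.mk unitInterval = 𝔠 := Cardinal.mk_Icc_real zero_lt_one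
      rw [h3]
      have h4 : Cardinal.mk s ≤ ℵ₀ := Cardinal.le_aleph0_iff_set_countable.mpr hs
      calc 𝔠 ^ Cardinal.mk s ≤ 𝔠 ^ ℵ₀ := Cardinal.power_le_power_left Cardinal.continuum_ne_zero h4
        _ = 𝔠 := Cardinal.continuum_power_aleph0
    exact h1.trans h2
  · have hIoi : Cardinal.mk (Set.Ioi (0 : ℝ)) = 𝔠 := Cardinal.mk_Ioi_real 0
    rw [← hIoi]
    choose g hg using fun c : Set.Ioi (0 : ℝ) => exists_homeo c.1 c.2
    apply Cardinal.mk_le_of_injective (f := g)
    intro c d hcd
    have h1 := hg c ⟨1 / 2, by norm_num, by norm_num⟩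
    have h2 := hg d ⟨1 / 2, by norm_num, by norm_num⟩
    rw [hcd, h2] at h1
    have hc : (0 : ℝ) < c.1 := c.2
    have hd : (0 : ℝ) < d.1 := d.2
    apply Subtype.ext
    simp only at h1
    rw [div_eq_div_iff (by linarith) (by linarith)] at h1
    linarith

lemma nonempty_equiv : Nonempty (Equiv.Perm ℤ ≃ (unitInterval ≃ₜ unitInterval)) := by
  rw [← Cardinal.eq, mk_homeo, Cardinal.mk_perm_eq_two_power, Cardinal.mk_denumerable,
    Cardinal.two_power_aleph0]

/-- The group of all permutations of `ℤ` and the group of all self-homeomorphisms of `[0,1]` have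
the same cardinality, and they are not isomorphic under decomposition. -/
theorem main :
    Nonempty (Equiv.Perm ℤ ≃ (unitInterval ≃ₜ unitInterval)) ∧
      ¬ GroupIsoDecomp (Equiv.Perm ℤ) (unitInterval ≃ₜ unitInterval) := by
  refine ⟨nonempty_equiv, ?_⟩
  intro h
  obtain ⟨φ, hφ⟩ := exists_embedding_of_groupIsoDecomp h
    (Multiplicative (ZMod 2) × Multiplicative (ZMod 2))
    (fun ι _ => exists_embedding_perm_int _ ι)
  exact no_klein φ hφ

end Pool.Agent.Lib.MP_0a04b1_lc
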